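import Pool.Agent.K3h30.RS.Stm4
import Pool.Agent.K3h25.RS.Trans
import Pool.Agent.K3h23.RS.Tors

/-!
# Frobenius fixes the prime; the decomposition group of an unramified prime
-/

set_option autoImplicit false

open NumberField IsDedekindDomain

noncomputable section

namespace Pool.Agent.K3h92.RS

open Pool.Agent.K3h30.RS

theorem lies {F H : Type} [Field F] [NumberField F] [Field H] [NumberField H] [Algebra F H]
    {v : HeightOneSpectrum (𝓞 F)} {w : HeightOneSpectrum (𝓞 H)} (hw : Above {v} w) :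
    w.asIdeal.comap (algebraMap (𝓞 F) (𝓞 H)) = v.asIdeal := by
  obtain ⟨v', hv', hvw⟩ := hw
  rw [Set.mem_singleton_iff] at hv'
  subst hv'
  exact hvw

theorem frob_key {F H G : Type} [Field F] [NumberField F] [Field H] [NumberField H] [Algebra F H]
    [CommGroup G] [MulSemiringAction G H] {v : HeightOneSpectrum (𝓞 F)} {g : G}
    (hg : IsFrob (H := H) v g) {w : HeightOneSpectrum (𝓞 H)} (hw : Above {v} w) (x : 𝓞 H) :
    g • x - x ^ (Ideal.absNorm v.asIdeal) ∈ w.asIdeal := by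
  rw [← HeightOneSpectrum.valuation_lt_one_iff_mem (K := H)]
  exact hg w hw x

theorem absNorm_ne {F : Type} [Field F] [NumberField F] (v : HeightOneSpectrum (𝓞 F)) :
    Ideal.absNorm v.asIdeal ≠ 0 := Ideal.absNorm_eq_zero_iff.not.mpr v.ne_bot

theorem frob_mem {F H G : Type} [Field F] [NumberField F] [Field H] [NumberField H] [Algebra F H]
    [CommGroup G] [MulSemiringAction G H] {v : HeightOneSpectrum (𝓞 F)} {g : G}
    (hg : IsFrob (H := H) v g) {w : HeightOneSpectrum (𝓞 H)} (hw : Above {v} w) (x : 𝓞 H) :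
    x ∈ w.asIdeal ↔ g • x ∈ w.asIdeal := by
  have h := frob_key hg hw x
  constructor
  · intro hx
    have h1 : x ^ (Ideal.absNorm v.asIdeal) ∈ w.asIdeal :=
      w.asIdeal.pow_mem_of_mem hx _ (Nat.pos_of_ne_zero (absNorm_ne v))
    have h2 := w.asIdeal.add_mem h h1
    rwa [sub_add_cancel] at h2
  · intro hx
    have h1 := w.asIdeal.sub_mem hx h
    rw [sub_sub_cancel] at h1
    exact w.isPrime.mem_of_pow_mem _ h1

/-- **FIX** -/
theorem t_FIX : S_FIX := by
  intro F H G _ _ _ _ _ _ _ _ _ v γ hγ w hw x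
  have h := Pool.Agent.K3h25.RS.val_aut w w γ (fun x => frob_mem hγ hw x) x
  change HeightOneSpectrum.adicAbv H w (γ • x) = HeightOneSpectrum.adicAbv H w x
  rw [HeightOneSpectrum.adicAbv_def, HeightOneSpectrum.adicAbv_def, h]

theorem fixes_mem {H G : Type} [Field H] [NumberField H]
    [CommGroup G] [MulSemiringAction G H] {w : HeightOneSpectrum (𝓞 H)} {γ : G}
    (h : Fixes (Sum.inr w : Place H) γ) (x : 𝓞 H) : γ • x ∈ w.asIdeal ↔ x ∈ w.asIdeal := by
  have h1 : HeightOneSpectrum.adicAbv H w (γ • (x : H)) = HeightOneSpectrum.adicAbv H w x :=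
    h (x : H)
  have h2 : ∀ y : 𝓞 H, HeightOneSpectrum.adicAbv H w (y : H) < 1 ↔ y ∈ w.asIdeal := fun y =>
    w.adicAbv_coe_lt_one_iff (HeightOneSpectrum.one_lt_absNorm_nnreal w) y
  rw [← h2, ← h2]
  have h3 : ((γ • x : 𝓞 H) : H) = γ • (x : H) := rfl
  rw [h3, h1]

/-- the inertia group of an unramified prime is trivial -/
theorem inertia_bot {F H G : Type} [Field F] [NumberField F] [Field H] [NumberField H]
    [Algebra F H] [CommGroup G] [Finite G] [MulSemiringAction G H] [IsGaloisGroup G F H]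
    (v : HeightOneSpectrum (𝓞 F)) (hsq : Squarefree (v.asIdeal.map (algebraMap (𝓞 F) (𝓞 H))))
    (w : HeightOneSpectrum (𝓞 H)) (hw : Above {v} w) : w.asIdeal.inertia G = ⊥ := by
  have hwp := w.isPrime
  have hvp := v.isPrime
  have hvm := v.isMaximal
  have hwv := lies hw
  have hlo : w.asIdeal.LiesOver v.asIdeal := ⟨hwv.symm⟩
  have : PerfectField v.asIdeal.ResidueField := by
    have hf : Finite (𝓞 F ⧸ v.asIdeal) := Ideal.finiteQuotientOfFreeOfNeBot _ v.ne_bot
    have hf2 : Finite v.asIdeal.ResidueField :=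
      Finite.of_surjective _ (Ideal.bijective_algebraMap_quotient_residueField v.asIdeal).2
    infer_instance
  have hgal : IsGaloisGroup G (𝓞 F) (𝓞 H) := inferInstance
  have hcard : Nat.card (w.asIdeal.inertia G) = 1 := by
    rw [Ideal.card_inertia_eq_ramificationIdxIn v.asIdeal w.asIdeal,
      Ideal.ramificationIdxIn_eq_ramificationIdx v.asIdeal w.asIdeal G,
      ← Ideal.ramificationIdx'_eq_ramificationIdx v.asIdeal w.asIdeal v.ne_bot]
    by_contra h
    have hle : v.asIdeal.map (algebraMap (𝓞 F) (𝓞 H)) ≤ w.asIdeal :=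
      Ideal.map_le_iff_le_comap.mpr hwv.ge
    rw [← ne_eq, Ideal.ramificationIdx'_ne_one_iff hle] at h
    have h1 : w.asIdeal * w.asIdeal ∣ v.asIdeal.map (algebraMap (𝓞 F) (𝓞 H)) := by
      rw [← pow_two]
      exact Ideal.dvd_iff_le.mpr h
    have h2 := hsq _ h1
    exact hwp.ne_top (Ideal.isUnit_iff.mp h2)
  exact Subgroup.card_eq_one.mp hcard

open scoped Pointwise in
/-- **DECOMP** -/
theorem t_DECOMP : S_DECOMP := by
  intro F H G _ _ _ _ _ _ _ _ _ v hsq σ hσ w hw γ hγ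
  have hwp := w.isPrime
  have hvp := v.isPrime
  have hvm := v.isMaximal
  have hwm := w.isMaximal
  have hwv := lies hw
  have hlo : w.asIdeal.LiesOver v.asIdeal := ⟨hwv.symm⟩
  have hgal : IsGaloisGroup G (𝓞 F) (𝓞 H) := inferInstance
  have hs : SMulCommClass G (𝓞 F) (𝓞 H) := hgal.commutes
  -- the stabilizer
  have hstab : γ ∈ MulAction.stabilizer G w.asIdeal := by
    rw [MulAction.mem_stabilizer_iff]
    ext x
    rw [Ideal.mem_pointwise_smul_iff_inv_smul_mem, ← fixes_mem hγ, smul_inv_smul]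
  let _ : Field (𝓞 F ⧸ v.asIdeal) := Ideal.Quotient.field v.asIdeal
  let _ : Field (𝓞 H ⧸ w.asIdeal) := Ideal.Quotient.field w.asIdeal
  have hf1 : Finite (𝓞 F ⧸ v.asIdeal) := Ideal.finiteQuotientOfFreeOfNeBot _ v.ne_bot
  have hf2 : Finite (𝓞 H ⧸ w.asIdeal) := Ideal.finiteQuotientOfFreeOfNeBot _ w.ne_bot
  let _ := Fintype.ofFinite (𝓞 F ⧸ v.asIdeal)
  have hq : Fintype.card (𝓞 F ⧸ v.asIdeal) = Ideal.absNorm v.asIdeal := by
    rw [← Nat.card_eq_fintype_card]
    rfl
  obtain ⟨i, hi⟩ := (FiniteField.bijective_frobeniusAlgEquivOfAlgebraic_pow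
    (𝓞 F ⧸ v.asIdeal) (𝓞 H ⧸ w.asIdeal)).2
      (Ideal.Quotient.stabilizerHom w.asIdeal v.asIdeal G ⟨γ, hstab⟩)
  have hγi : ∀ x : 𝓞 H, γ • x - x ^ (Ideal.absNorm v.asIdeal) ^ (i : ℕ) ∈ w.asIdeal := by
    intro x
    rw [← Ideal.Quotient.eq_zero_iff_mem, map_sub, map_pow, sub_eq_zero]
    have h1 := congrArg (fun φ => φ (Ideal.Quotient.mk w.asIdeal x)) hi
    simp only [AlgEquiv.coe_pow, FiniteField.coe_frobeniusAlgEquivOfAlgebraic_iterate, hq] at h1
    rw [h1]
    rfl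
  have hσi : ∀ (k : ℕ) (x : 𝓞 H), σ ^ k • x - x ^ (Ideal.absNorm v.asIdeal) ^ k ∈ w.asIdeal := by
    intro k
    induction k with
    | zero =>
      intro x
      simp
    | succ k ih =>
      intro x
      have h1 := ih (σ • x)
      have h2 := frob_key hσ hw x
      have h3 : (σ • x) ^ (Ideal.absNorm v.asIdeal) ^ k -
          (x ^ Ideal.absNorm v.asIdeal) ^ (Ideal.absNorm v.asIdeal) ^ k ∈ w.asIdeal := by
        have h4 := sub_dvd_pow_sub_pow (σ • x) (x ^ Ideal.absNorm v.asIdeal)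
          ((Ideal.absNorm v.asIdeal) ^ k)
        obtain ⟨c, hc⟩ := h4
        rw [hc]
        exact w.asIdeal.mul_mem_right _ h2
      have h5 := w.asIdeal.add_mem h1 h3
      rw [sub_add_sub_cancel, ← pow_mul, smul_smul, ← pow_succ] at h5
      rwa [pow_succ' (Ideal.absNorm v.asIdeal)]
  have hσmem : ∀ (k : ℕ) (x : 𝓞 H), σ ^ k • x ∈ w.asIdeal → x ∈ w.asIdeal := by
    intro k
    induction k with
    | zero =>
      intro x hx
      simpa using hx
    | succ k ih =>
      intro x hx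
      rw [pow_succ, mul_smul] at hx
      exact (frob_mem hσ hw x).2 (ih _ hx)
  have hin : (σ ^ (i : ℕ))⁻¹ * γ ∈ w.asIdeal.inertia G := by
    intro x
    apply hσmem (i : ℕ)
    have h1 := w.asIdeal.sub_mem (hγi x) (hσi i x)
    have h2 : γ • x - x ^ (Ideal.absNorm v.asIdeal) ^ (i : ℕ) -
        (σ ^ (i : ℕ) • x - x ^ (Ideal.absNorm v.asIdeal) ^ (i : ℕ)) =
        σ ^ (i : ℕ) • (((σ ^ (i : ℕ))⁻¹ * γ) • x - x) := by
      rw [smul_sub, smul_smul, mul_inv_cancel_left]
      ring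
    rw [h2] at h1
    exact h1
  rw [inertia_bot v hsq w hw, Subgroup.mem_bot] at hin
  have h6 : σ ^ (i : ℕ) = γ := inv_mul_eq_one.mp hin
  rw [← h6]
  exact Subgroup.npow_mem_zpowers σ _

end Pool.Agent.K3h92.RS
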